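import Mathlib

/-!
# Circulant graphs of monophonic position number two and diameter two

There is no circulant graph of order `15` with monophonic position number `2` and diameter `2`.
-/

namespace Pool.Agent.Results.MP_1f00fa_co.NoneOfOrderFifteen

open Finset

/-- The circulant graph `Cay(ℤ/n, C)`, for `C` with `0 ∉ C` and `C = -C`. -/
def cay {n : ℕ} (C : Set (ZMod n)) (h0 : 0 ∉ C) (hC : ∀ x ∈ C, -x ∈ C) :
    SimpleGraph (ZMod n) where
  Adj i j := j - i ∈ C
  symm := ⟨fun i j h => by
    have := hC _ h
    rwa [neg_sub] at this⟩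
  loopless := ⟨fun i h => h0 (by rwa [sub_self] at h)⟩

/-- `p 0, p 1, …, p k` is a monophonic (induced) path of `G`: the vertices are distinct and
`p i`, `p j` (`i < j`) are adjacent exactly when `j = i + 1`. -/
def IsMono {V : Type*} (G : SimpleGraph V) (k : ℕ) (p : ℕ → V) : Prop :=
  (∀ i j, i ≤ k → j ≤ k → p i = p j → i = j) ∧
    ∀ i j, i < j → j ≤ k → (G.Adj (p i) (p j) ↔ j = i + 1)

/-- `u`, `v`, `w` lie on a common monophonic path. -/
def OnCommonMono {V : Type*} (G : SimpleGraph V) (u v w : V) : Prop :=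
  ∃ (k : ℕ) (p : ℕ → V), IsMono G k p ∧ (∃ i ≤ k, p i = u) ∧ (∃ i ≤ k, p i = v) ∧
    ∃ i ≤ k, p i = w

/-- `S` is a monophonic position set: no three distinct vertices of `S` lie on a common monophonic
path. -/
def IsMPSet {V : Type*} (G : SimpleGraph V) (S : Finset V) : Prop :=
  ∀ u ∈ S, ∀ v ∈ S, ∀ w ∈ S, u ≠ v → u ≠ w → v ≠ w → ¬ OnCommonMono G u v w

/-- The monophonic position number: the largest size of a monophonic position set. -/
noncomputable def mp {V : Type*} (G : SimpleGraph V) : ℕ :=
  sSup {k | ∃ S : Finset V, IsMPSet G S ∧ S.card = k}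

/-! ## The checker -/

section
variable (adj : ℕ → ℕ → Bool) (b c : ℕ)

/-- Does some induced path that starts with the reversal of `prev` followed by `cur` reach `c`
after having visited `b`? (`seen`: was `b` visited already?) -/
def ext : ℕ → List ℕ → ℕ → Bool → Bool
  | 0, _, _, _ => true
  | f + 1, prev, cur, seen => !(prev.any fun p => adj p c) &&
      ((seen || !(prev.any fun p => adj p b)) &&
      (List.range 15).any fun v =>
      adj cur v && (!(prev.any fun p => adj p v || Nat.beq p v) &&
        (bif Nat.beq v c then seen else ext f (cur :: prev) v (seen || Nat.beq v b))))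

end

/-- The earlier vertices, most recent first. -/
def prevL (p : ℕ → ZMod 15) (i : ℕ) : ℕ → List ℕ
  | 0 => []
  | t + 1 => (p (i + t)).val :: prevL p i t

theorem mem_prevL {p : ℕ → ZMod 15} {i : ℕ} : ∀ {t : ℕ} {x : ℕ}, x ∈ prevL p i t →
    ∃ s < t, x = (p (i + s)).val
  | 0, _, h => absurd h (by simp [prevL])
  | t + 1, x, h => by
    rw [prevL, List.mem_cons] at h
    rcases h with h | h
    · exact ⟨t, by omega, h⟩
    · obtain ⟨s, hs, hx⟩ := mem_prevL h
      exact ⟨s, by omega, hx⟩

theorem nbeq {a b : ℕ} : Nat.beq a b = false ↔ a ≠ b := by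
  rw [← Bool.not_eq_true, Nat.beq_eq]

theorem ext_of_path (G : SimpleGraph (ZMod 15)) (adj : ℕ → ℕ → Bool)
    (hadj : ∀ x y : ZMod 15, adj x.val y.val = true ↔ G.Adj x y) {k : ℕ} {p : ℕ → ZMod 15}
    (hp : IsMono G k p) {i j l : ℕ} (hjl : j < l) (hl : l ≤ k) :
    ∀ r t, 1 ≤ r → i + t + r = l → ∀ f,
      ext adj (p j).val (p l).val f (prevL p i t) (p (i + t)).val (decide (j ≤ i + t)) =
        true := by
  have hinj : ∀ x y : ZMod 15, x.val = y.val ↔ x = y := fun x y =>
    (ZMod.val_injective 15).eq_iff
  intro r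
  induction r with
  | zero => intro t h; exact absurd h (by norm_num)
  | succ r ih =>
    intro t _ ht f
    cases f with
    | zero => rfl
    | succ f =>
      have hfar : ∀ m, i + t + 1 ≤ m → m ≤ l →
          ((prevL p i t).any fun x => adj x (p m).val) = false := by
        intro m hm hm'
        rw [← Bool.not_eq_true, List.any_eq_true]
        rintro ⟨x, hx, hx'⟩
        obtain ⟨s, hs, rfl⟩ := mem_prevL hx
        rw [hadj] at hx'
        have := (hp.2 (i + s) m (by omega) (by omega)).1 hx'
        omega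
      rw [ext, hfar l (by omega) le_rfl, Bool.not_false, Bool.true_and]
      have hseen : (decide (j ≤ i + t) || !((prevL p i t).any fun x => adj x (p j).val)) =
          true := by
        by_cases h : j ≤ i + t
        · rw [Bool.or_eq_true, decide_eq_true_iff]
          exact Or.inl h
        · rw [hfar j (by omega) hjl.le, Bool.not_false, Bool.or_true]
      rw [hseen, Bool.true_and, List.any_eq_true]
      refine ⟨(p (i + t + 1)).val, List.mem_range.2 (ZMod.val_lt _), ?_⟩
      rw [Bool.and_eq_true, Bool.and_eq_true]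
      refine ⟨?_, ?_, ?_⟩
      · rw [hadj]
        exact (hp.2 (i + t) (i + t + 1) (by omega) (by omega)).2 rfl
      · rw [Bool.not_eq_true', ← Bool.not_eq_true, List.any_eq_true]
        rintro ⟨x, hx, hx'⟩
        obtain ⟨s, hs, rfl⟩ := mem_prevL hx
        rw [Bool.or_eq_true, hadj, Nat.beq_eq, hinj] at hx'
        rcases hx' with h | h
        · have := (hp.2 (i + s) (i + t + 1) (by omega) (by omega)).1 h
          omega
        · have := hp.1 _ _ (by omega) (by omega) h
          omega
      · by_cases hr : r = 0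
        · have hlast : i + t + 1 = l := by omega
          have hb : Nat.beq (p (i + t + 1)).val (p l).val = true := by
            rw [hlast, Nat.beq_eq]
          rw [hb, cond_true, decide_eq_true_iff]
          omega
        · have hne : Nat.beq (p (i + t + 1)).val (p l).val = false := by
            rw [nbeq]
            intro h
            have := hp.1 _ _ (by omega) hl ((hinj _ _).1 h)
            omega
          rw [hne, cond_false]
          have key := ih (t + 1) (by omega) (by omega) f
          have e1 : (decide (j ≤ i + t) || Nat.beq (p (i + t + 1)).val (p j).val) =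
              decide (j ≤ i + (t + 1)) := by
            rw [Bool.eq_iff_iff, Bool.or_eq_true, decide_eq_true_iff, Nat.beq_eq, hinj,
              decide_eq_true_iff]
            constructor
            · rintro (h | h)
              · omega
              · have := hp.1 _ _ (by omega) (by omega) h
                omega
            · intro h
              by_cases h' : j ≤ i + t
              · exact Or.inl h'
              · right
                have : j = i + t + 1 := by omega
                rw [this]
          rw [e1]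
          exact key

/-- None of the six orders of `u`, `v`, `w` occurs along an induced path. -/
def trip (adj : ℕ → ℕ → Bool) (u v w : ℕ) : Bool :=
  (!(ext adj v w 15 [] u false) && !(ext adj w v 15 [] u false)) &&
  ((!(ext adj u w 15 [] v false) && !(ext adj w u 15 [] v false)) &&
  (!(ext adj u v 15 [] w false) && !(ext adj v u 15 [] w false)))

theorem not_common (G : SimpleGraph (ZMod 15)) (adj : ℕ → ℕ → Bool)
    (hadj : ∀ x y : ZMod 15, adj x.val y.val = true ↔ G.Adj x y) {u v w : ZMod 15} (huv : u ≠ v)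
    (huw : u ≠ w) (hvw : v ≠ w) (h : trip adj u.val v.val w.val = true) :
    ¬ OnCommonMono G u v w := by
  rintro ⟨k, p, hp, ⟨i, hi, rfl⟩, ⟨j, hj, rfl⟩, ⟨l, hl, rfl⟩⟩
  simp only [trip, Bool.and_eq_true, Bool.not_eq_true'] at h
  obtain ⟨⟨h1, h2⟩, ⟨h3, h4⟩, ⟨h5, h6⟩⟩ := h
  have hij : i ≠ j := fun h => huv (by rw [h])
  have hil : i ≠ l := fun h => huw (by rw [h])
  have hjl : j ≠ l := fun h => hvw (by rw [h])
  have key : ∀ a b c : ℕ, a < b → b < c → c ≤ k →
      ext adj (p b).val (p c).val 15 [] (p a).val false = true := by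
    intro a b c hab hbc hc
    have := ext_of_path G adj hadj hp (i := a) hbc hc (c - a) 0 (by omega) (by omega) 15
    rw [prevL, Nat.add_zero] at this
    have e : decide (b ≤ a) = false := by
      rw [decide_eq_false_iff_not]
      omega
    rwa [e] at this
  rcases lt_or_gt_of_ne hij with a1 | a1 <;> rcases lt_or_gt_of_ne hjl with a2 | a2 <;>
    rcases lt_or_gt_of_ne hil with a3 | a3
  · rw [key i j l a1 a2 hl] at h1; exact absurd h1 (by decide)
  · omega
  · rw [key i l j a3 a2 hj] at h2; exact absurd h2 (by decide)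
  · rw [key l i j a3 a1 hj] at h5; exact absurd h5 (by decide)
  · rw [key j i l a1 a3 hl] at h3; exact absurd h3 (by decide)
  · rw [key j l i a2 a3 hi] at h4; exact absurd h4 (by decide)
  · omega
  · rw [key l j i a2 a1 hi] at h6; exact absurd h6 (by decide)

/-- The indicator (as a list) of the connection set with half `b1, …, b7`. -/
def conn (b1 b2 b3 b4 b5 b6 b7 : Bool) : List Bool :=
  [false, b1, b2, b3, b4, b5, b6, b7, b7, b6, b5, b4, b3, b2, b1]

/-- Adjacency from an indicator list. -/
def adjOf (L : List Bool) (x y : ℕ) : Bool := L.getD ((y + (15 - x)) % 15) false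

theorem adjOf_val (L : List Bool) (x y : ZMod 15) :
    adjOf L x.val y.val = L.getD (y - x).val false := by
  have h : ∀ x y : ZMod 15, (y.val + (15 - x.val)) % 15 = (y - x).val := by decide +kernel
  rw [adjOf, h]

/-- For each connection set, a pair `b`, `c` such that `0`, `b`, `c` is a good triple, coded as
`16 * b + c`. -/
def table : List ℕ :=
  [0, 0, 0, 0, 0, 0, 0, 0, 0, 0, 0, 18, 0, 20, 36, 18, 0, 0, 0, 18, 0, 90, 37, 18, 0, 21, 36, 18,
   90, 20, 36, 18, 0, 0, 0, 18, 0, 54, 54, 18, 0, 90, 0, 18, 54, 20, 36, 18, 0, 22, 90, 18, 54,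
   22, 37, 18, 73, 21, 36, 18, 54, 20, 36, 18, 0, 0, 0, 18, 0, 24, 90, 18, 0, 24, 36, 18, 0, 20,
   36, 18, 0, 24, 39, 18, 56, 24, 37, 18, 72, 21, 36, 18, 55, 20, 36, 18, 0, 0, 40, 18, 54, 23,
   40, 18, 72, 23, 36, 18, 54, 20, 36, 18, 90, 22, 39, 18, 54, 22, 37, 18, 72, 21, 36, 18, 54,
   20, 36, 0]

/-- Complete graph, or some vertex at distance more than two from `0`, or `0, b, c` is a good
triple. -/
def good (L : List Bool) (b c : ℕ) : Bool :=
  ((List.range 15).all fun v => Nat.beq v 0 || L.getD v false) ||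
  (((List.range 15).any fun v => (!(Nat.beq v 0) && !(L.getD v false)) &&
    ((List.range 15).all fun w => !(L.getD w false && adjOf L w v))) ||
  (((!(Nat.beq b 0) && !(Nat.beq c 0)) && ((!(Nat.beq b c) && Nat.blt b 15) && Nat.blt c 15)) &&
    trip (adjOf L) 0 b c))

/-- Index of a connection set in the table. -/
def idx (b1 b2 b3 b4 b5 b6 b7 : Bool) : ℕ :=
  b1.toNat + 2 * b2.toNat + 4 * b3.toNat + 8 * b4.toNat + 16 * b5.toNat + 32 * b6.toNat +
    64 * b7.toNat

theorem all_good : ∀ b1 b2 b3 b4 b5 b6 b7 : Bool,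
    good (conn b1 b2 b3 b4 b5 b6 b7) (table.getD (idx b1 b2 b3 b4 b5 b6 b7) 0 / 16)
      (table.getD (idx b1 b2 b3 b4 b5 b6 b7) 0 % 16) = true := by
  decide +kernel

/-! ## The main result -/

theorem adj_iff_of_conn (C : Set (ZMod 15)) (h0 : 0 ∉ C) (hC : ∀ x ∈ C, -x ∈ C) :
    ∃ b1 b2 b3 b4 b5 b6 b7 : Bool, ∀ x : ZMod 15,
      x ∈ C ↔ (conn b1 b2 b3 b4 b5 b6 b7).getD x.val false = true := by
  classical
  refine ⟨decide (1 ∈ C), decide (2 ∈ C), decide (3 ∈ C), decide (4 ∈ C), decide (5 ∈ C),
    decide (6 ∈ C), decide (7 ∈ C), ?_⟩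
  have hC' : ∀ x y : ZMod 15, y = -x → (y ∈ C ↔ x ∈ C) := by
    rintro x y rfl
    constructor
    · intro h
      have := hC _ h
      rwa [neg_neg] at this
    · exact hC x
  have key : ∀ (x : ZMod 15), x = 0 ∨ x = 1 ∨ x = 2 ∨ x = 3 ∨ x = 4 ∨ x = 5 ∨ x = 6 ∨ x = 7 ∨
      x = 8 ∨ x = 9 ∨ x = 10 ∨ x = 11 ∨ x = 12 ∨ x = 13 ∨ x = 14 := by decide
  intro x
  rcases key x with h | h | h | h | h | h | h | h | h | h | h | h | h | h | h <;> subst h
  · exact ⟨fun h => absurd h h0, fun h => absurd (show false = true from h) (by decide)⟩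
  · exact decide_eq_true_iff.symm
  · exact decide_eq_true_iff.symm
  · exact decide_eq_true_iff.symm
  · exact decide_eq_true_iff.symm
  · exact decide_eq_true_iff.symm
  · exact decide_eq_true_iff.symm
  · exact decide_eq_true_iff.symm
  · exact (hC' 7 8 (by decide)).trans decide_eq_true_iff.symm
  · exact (hC' 6 9 (by decide)).trans decide_eq_true_iff.symm
  · exact (hC' 5 10 (by decide)).trans decide_eq_true_iff.symm
  · exact (hC' 4 11 (by decide)).trans decide_eq_true_iff.symm
  · exact (hC' 3 12 (by decide)).trans decide_eq_true_iff.symm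
  · exact (hC' 2 13 (by decide)).trans decide_eq_true_iff.symm
  · exact (hC' 1 14 (by decide)).trans decide_eq_true_iff.symm

theorem mp_ne_two (G : SimpleGraph (ZMod 15)) (adj : ℕ → ℕ → Bool)
    (hadj : ∀ x y : ZMod 15, adj x.val y.val = true ↔ G.Adj x y) {b c : ZMod 15} (hb : b ≠ 0)
    (hc : c ≠ 0) (hbc : b ≠ c) (h : trip adj 0 b.val c.val = true) : mp G ≠ 2 := by
  have hS : IsMPSet G {0, b, c} := by
    have h' : trip adj (0 : ZMod 15).val b.val c.val = true := h
    simp only [trip, Bool.and_eq_true, Bool.not_eq_true'] at h'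
    obtain ⟨⟨h1, h2⟩, ⟨h3, h4⟩, ⟨h5, h6⟩⟩ := h'
    intro u hu v hv w hw huv huw hvw
    refine not_common G adj hadj huv huw hvw ?_
    simp only [mem_insert, mem_singleton] at hu hv hw
    simp only [trip, Bool.and_eq_true, Bool.not_eq_true']
    rcases hu with hu | hu | hu <;> rcases hv with hv | hv | hv <;>
      rcases hw with hw | hw | hw <;>
      first
      | exact absurd (hu.trans hv.symm) huv
      | exact absurd (hu.trans hw.symm) huw
      | exact absurd (hv.trans hw.symm) hvw
      | (rw [hu, hv, hw]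
         exact ⟨⟨by assumption, by assumption⟩, ⟨by assumption, by assumption⟩,
           ⟨by assumption, by assumption⟩⟩)
  have hcard : ({0, b, c} : Finset (ZMod 15)).card = 3 := by
    rw [card_insert_of_notMem, card_insert_of_notMem, card_singleton]
    · rw [mem_singleton]; exact hbc
    · rw [mem_insert, mem_singleton, not_or]; exact ⟨hb.symm, hc.symm⟩
  have hle : 3 ≤ mp G := by
    apply le_csSup
    · refine ⟨15, ?_⟩
      rintro k ⟨S, -, rfl⟩
      have := card_le_univ S
      rwa [ZMod.card] at this
    · exact ⟨_, hS, hcard⟩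
  omega

/-- There is no circulant graph of order `15` with diameter `2` and monophonic position
number `2`. -/
theorem none_of_order_fifteen (C : Set (ZMod 15)) (h0 : 0 ∉ C) (hC : ∀ x ∈ C, -x ∈ C)
    (hdiam : (cay C h0 hC).diam = 2) : mp (cay C h0 hC) ≠ 2 := by
  obtain ⟨b1, b2, b3, b4, b5, b6, b7, hb⟩ := adj_iff_of_conn C h0 hC
  have hg := all_good b1 b2 b3 b4 b5 b6 b7
  generalize conn b1 b2 b3 b4 b5 b6 b7 = L at hb hg
  generalize table.getD (idx b1 b2 b3 b4 b5 b6 b7) 0 / 16 = b at hg
  generalize table.getD (idx b1 b2 b3 b4 b5 b6 b7) 0 % 16 = c at hg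
  set G := cay C h0 hC with hG
  have hadj : ∀ x y : ZMod 15, adjOf L x.val y.val = true ↔ G.Adj x y := fun x y => by
    rw [adjOf_val]
    exact (hb (y - x)).symm
  rw [good, Bool.or_eq_true, Bool.or_eq_true] at hg
  rcases hg with hg | hg | hg
  · -- complete graph
    exfalso
    have htop : G = ⊤ := by
      ext x y
      rw [SimpleGraph.top_adj, ← hadj, adjOf_val]
      rw [List.all_eq_true] at hg
      have := hg (y - x).val (List.mem_range.2 (ZMod.val_lt _))
      rw [Bool.or_eq_true, Nat.beq_eq, ZMod.val_eq_zero, sub_eq_zero] at this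
      constructor
      · rintro h rfl
        rw [sub_self] at h
        exact h0 ((hb 0).2 h)
      · intro hne
        exact this.resolve_left (fun h => hne h.symm)
    have : Nontrivial (ZMod 15) := ⟨⟨0, 1, by decide⟩⟩
    rw [htop, SimpleGraph.diam_top] at hdiam
    norm_num at hdiam
  · -- a vertex at distance more than two
    exfalso
    rw [List.any_eq_true] at hg
    obtain ⟨v', hv', hv⟩ := hg
    rw [Bool.and_eq_true, Bool.and_eq_true, Bool.not_eq_true', Bool.not_eq_true', nbeq,
      List.all_eq_true] at hv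
    obtain ⟨⟨hv0, hv1⟩, hv2⟩ := hv
    obtain ⟨v, rfl⟩ : ∃ v : ZMod 15, v.val = v' := by
      refine ⟨(v' : ZMod 15), ?_⟩
      rw [ZMod.val_natCast]
      exact Nat.mod_eq_of_lt (List.mem_range.1 hv')
    have hed : G.ediam = 2 := by
      have h := hdiam
      rw [SimpleGraph.diam] at h
      have hne : G.ediam ≠ ⊤ := by
        intro h'
        rw [h'] at h
        simp at h
      rw [← ENat.natCast_toNat hne, h]
      rfl
    have hle : G.edist 0 v ≤ 2 := by
      rw [← hed]
      exact SimpleGraph.edist_le_ediam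
    have hne : G.edist 0 v ≠ ⊤ := by
      intro h
      rw [h] at hle
      simp at hle
    obtain ⟨p, hp⟩ := SimpleGraph.exists_walk_of_edist_ne_top hne
    rw [← hp] at hle
    have hle' : p.length ≤ 2 := by exact_mod_cast hle
    cases p with
    | nil => exact hv0 rfl
    | cons h1 p =>
      cases p with
      | nil =>
        have := (hadj _ _).2 h1
        rw [adjOf_val, sub_zero, hv1] at this
        exact absurd this (by decide)
      | cons h2 p =>
        cases p with
        | nil =>
          rename_i w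
          have a1 := (hadj _ _).2 h1
          have a2 := (hadj _ _).2 h2
          rw [adjOf_val, sub_zero] at a1
          have := hv2 w.val (List.mem_range.2 (ZMod.val_lt _))
          rw [a1, a2] at this
          exact absurd this (by decide)
        | cons h3 p =>
          simp only [SimpleGraph.Walk.length_cons] at hle'
          omega
  · simp only [Bool.and_eq_true, Bool.not_eq_true', nbeq, Nat.blt_eq] at hg
    obtain ⟨⟨⟨hb0, hc0⟩, ⟨hbc, hb15⟩, hc15⟩, ht⟩ := hg
    have eb : ((b : ℕ) : ZMod 15).val = b := by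
      rw [ZMod.val_natCast]
      exact Nat.mod_eq_of_lt hb15
    have ec : ((c : ℕ) : ZMod 15).val = c := by
      rw [ZMod.val_natCast]
      exact Nat.mod_eq_of_lt hc15
    refine mp_ne_two G (adjOf L) hadj (b := (b : ZMod 15)) (c := (c : ZMod 15)) ?_ ?_ ?_ ?_
    · intro h
      rw [h] at eb
      exact hb0 eb.symm
    · intro h
      rw [h] at ec
      exact hc0 ec.symm
    · intro h
      rw [h, ec] at eb
      exact hbc eb.symm
    · rw [eb, ec]
      exact ht

/-- Negated form of Q1: for `n = 15` there is no circulant graph of order `n` with monophonic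
position number `2` and diameter `2`. -/
theorem result : ∃ n : ℕ, 11 ≤ n ∧ n = 15 ∧
    ∀ (C : Set (ZMod n)) (h0 : 0 ∉ C) (hC : ∀ x ∈ C, -x ∈ C),
      ¬ (mp (cay C h0 hC) = 2 ∧ (cay C h0 hC).Connected ∧ (cay C h0 hC).diam = 2) :=
  ⟨15, by norm_num, rfl, fun C h0 hC h => none_of_order_fifteen C h0 hC h.2.2 h.1⟩

end Pool.Agent.Results.MP_1f00fa_co.NoneOfOrderFifteen
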